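import Pool.Agent.N436.DF.All
import Pool.Agent.N436.DF.Stm3

set_option autoImplicit false

/-! # Leaf DH/30: a single vertex with two real neighbours (project DF, third batch) -/

namespace Pool.Agent.N658.DF.T2h

open Finset Pool.Agent.N436.DF

section gen
set_option linter.unusedSectionVars false

variable {V : Type} [DecidableEq V]

lemma r_nn {H : Hub V} (ok : Ok P13 H) (u v : V) : 0 ≤ H.r u v := by
  rcases ok.r01 u v with h | h <;> omega

/-- gluing a single vertex -/
lemma glueV (hg : S3_glue) {H : Hub V} (ok : Ok P13 H) {S : Finset V} {v : V} (hv : v ∈ S)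
    (c : Bool) (hc : 0 ≤ H.c c v) (g : V → Bool) (q : V → V → ℤ)
    (hq : ColBy H (S \ {v}) g q) (sX sB : V → ℤ) (nX : ∀ z, 0 ≤ sX z) (nB : ∀ z, 0 ≤ sB z)
    (h1 : ∀ z ∈ S \ {v}, c = g z → H.r v z ≤ sX z ∧ H.r v z ≤ sB z)
    (h2 : ∀ z ∈ S \ {v}, c ≠ g z → H.m v z ≤ sX z + sB z)
    (h3 : ∑ z ∈ S \ {v}, sX z ≤ H.c c v)
    (h4 : ∀ z ∈ S \ {v}, load H (S \ {v}) g q z + sB z ≤ H.c (g z) z) : Col H S := by
  have hl : load H {v} (fun _ => c) (fun _ _ => 0) v = 0 := by
    simp [load, ok.r0 v]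
  obtain ⟨F, P', hF, -⟩ := hg V H S {v} (fun _ => c) g (fun _ _ => 0) q (fun _ z => sX z)
    (fun z _ => sB z) ok (by simpa using hv)
    { nn := fun _ _ => le_rfl
      pay := fun u _ w _ h => absurd rfl h
      cap := by
        intro u hu
        rw [mem_singleton] at hu
        subst hu
        rw [hl]
        exact hc }
    hq (fun _ z => nX z) (fun z _ => nB z)
    (by
      intro x hx z hz h
      rw [mem_singleton] at hx
      subst hx
      exact h1 z hz h)
    (by
      intro x hx z hz h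
      rw [mem_singleton] at hx
      subst hx
      exact h2 z hz h)
    (by
      intro x hx
      rw [mem_singleton] at hx
      subst hx
      rw [hl, zero_add]
      exact h3)
    (by
      intro z hz
      rw [sum_singleton]
      exact h4 z hz)
  exact ⟨F, P', hF⟩

/-- the kill argument for a single vertex -/
lemma killV (hk : S3_kill) {H : Hub V} {S : Finset V} {v : V} (mc : MinCex P13 H S) (hv : v ∈ S)
    (c : Bool) (hc : 0 ≤ H.c c v) (s : V → ℤ) (ns : ∀ z, 0 ≤ s z)
    (hs : ∑ z ∈ S \ {v}, s z ≤ H.c c v) :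
    ∃ C, C ⊆ S \ {v} ∧ C.Nonempty ∧
      hp H ({v} ∪ C) + ∑ z ∈ C, sv H (fun _ => c) (fun _ z => s z) v z ≤ hp H {v} - 3 := by
  have hl : load H {v} (fun _ => c) (fun _ _ => 0) v = 0 := by
    simp [load, mc.ok.r0 v]
  obtain ⟨C, hC, hne, h⟩ := hk V H S {v} (fun _ => c) (fun _ _ => 0) (fun _ z => s z) mc
    (by simpa using hv) (singleton_nonempty v)
    { nn := fun _ _ => le_rfl
      pay := fun u _ w _ h => absurd rfl h
      cap := by
        intro u hu
        rw [mem_singleton] at hu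
        subst hu
        rw [hl]
        exact hc } (fun _ z => ns z)
    (by
      intro x hx
      rw [mem_singleton] at hx
      subst hx
      rw [hl, zero_add]
      exact hs)
  rw [sum_singleton] at h
  exact ⟨C, hC, hne, h⟩

/-- potentials of `C ⊆ S \ {v}` -/
structure Ctx (H : Hub V) (S : Finset V) (v : V) (ν : ℤ) : Prop where
  mc : MinCex P13 H S
  hv : v ∈ S
  hν : hp H {v} = ν
  split : ∀ C, C ⊆ S \ {v} → hp H C = hp H ({v} ∪ C) - ν + 12 * ∑ z ∈ C, H.r v z
    + 5 * ∑ z ∈ C, H.m v z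
  full : -2 ≤ hp H ({v} ∪ (S \ {v}))
  prop : ∀ C, C ⊆ S \ {v} → C ≠ S \ {v} → 3 ≤ hp H ({v} ∪ C)
  one : ∀ C, C ⊆ S \ {v} → ∀ y ∈ S \ {v}, y ∉ C → H.r v y = 1 → 10 ≤ hp H ({v} ∪ C)
  two : ∀ C, C ⊆ S \ {v} → ∀ y ∈ S \ {v}, ∀ y' ∈ S \ {v}, y ∉ C → y' ∉ C → y ≠ y' →
    H.r v y = 1 → H.r v y' = 1 → ν ≤ hp H ({v} ∪ C)

lemma sub_of {S : Finset V} {v : V} (hv : v ∈ S) {C : Finset V} (hC : C ⊆ S \ {v}) :
    {v} ∪ C ⊆ S := by
  intro x hx
  rw [mem_union, mem_singleton] at hx
  rcases hx with rfl | hx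
  · exact hv
  · exact (mem_sdiff.1 (hC hx)).1

lemma ctx (hb : S3_base) {H : Hub V} {S : Finset V} {v y₁ y₂ : V} {ν : ℤ}
    (T : T2 H S {v} v y₁ y₂ ν) : Ctx H S v ν := by
  have hv : v ∈ S := T.sub (mem_singleton_self v)
  obtain ⟨b1, b2, -, -, b5⟩ := hb V H T.mc.ok
  obtain ⟨b6, b7⟩ := b5 S T.mc
  have hne : ∀ C : Finset V, ({v} ∪ C).Nonempty := fun C =>
    ⟨v, mem_union_left _ (mem_singleton_self v)⟩
  refine ⟨T.mc, hv, T.hν, ?_, ?_, ?_, ?_, ?_⟩
  · intro C hC
    have hd : Disjoint ({v} : Finset V) C := by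
      rw [disjoint_singleton_left]
      intro h
      exact (mem_sdiff.1 (hC h)).2 (mem_singleton_self v)
    have := b2 {v} C hd
    rw [T.hν, rr, mm, sum_singleton, sum_singleton] at this
    linarith
  · exact b6 _ (sub_of hv (Subset.refl _)) (hne _)
  · intro C hC hCne
    refine (b7 _ (sub_of hv hC) (hne C) ?_).2
    intro h
    apply hCne
    apply Subset.antisymm hC
    intro x hx
    rw [mem_sdiff, mem_singleton] at hx
    have : x ∈ {v} ∪ C := by rw [h]; exact hx.1
    rw [mem_union, mem_singleton] at this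
    exact this.resolve_left hx.2
  · intro C hC y hy hyC hr
    refine T.rb10 _ (sub_of hv hC) ⟨v, mem_union_left _ (mem_singleton_self v), y, ?_, hr⟩
    rw [mem_sdiff, mem_union, mem_singleton]
    rw [mem_sdiff, mem_singleton] at hy
    exact ⟨hy.1, fun h => h.elim hy.2 hyC⟩
  · intro C hC y hy y' hy' hyC hyC' hne' hr hr'
    refine T.min _ (sub_of hv hC) ⟨v, mem_union_left _ (mem_singleton_self v), y, ?_, y', ?_,
      hne', hr, hr'⟩
    · rw [mem_sdiff, mem_union, mem_singleton]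
      rw [mem_sdiff, mem_singleton] at hy
      exact ⟨hy.1, fun h => h.elim hy.2 hyC⟩
    · rw [mem_sdiff, mem_union, mem_singleton]
      rw [mem_sdiff, mem_singleton] at hy'
      exact ⟨hy'.1, fun h => h.elim hy'.2 hyC'⟩

/-- lower bounds for sums of nonnegative functions -/
lemma le_sum1 {C : Finset V} {F : V → ℤ} (hF : ∀ x, 0 ≤ F x) {a : V} (ha : a ∈ C) :
    F a ≤ ∑ x ∈ C, F x := single_le_sum (fun x _ => hF x) ha

lemma le_sum2 {C : Finset V} {F : V → ℤ} (hF : ∀ x, 0 ≤ F x) {a b : V} (ha : a ∈ C) (hb : b ∈ C)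
    (hab : a ≠ b) : F a + F b ≤ ∑ x ∈ C, F x := by
  rw [← sum_pair hab]
  apply sum_le_sum_of_subset_of_nonneg
  · intro x hx
    rw [mem_insert, mem_singleton] at hx
    rcases hx with rfl | rfl <;> assumption
  · intro x _ _
    exact hF x

lemma le_sum3 {C : Finset V} {F : V → ℤ} (hF : ∀ x, 0 ≤ F x) {a b c : V} (ha : a ∈ C)
    (hb : b ∈ C) (hc : c ∈ C) (hab : a ≠ b) (hac : a ≠ c) (hbc : b ≠ c) :
    F a + F b + F c ≤ ∑ x ∈ C, F x := by
  have h : ∑ x ∈ ({a, b, c} : Finset V), F x = F a + F b + F c := by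
    rw [sum_insert (by simp [hab, hac]), sum_pair hbc, add_assoc]
  rw [← h]
  apply sum_le_sum_of_subset_of_nonneg
  · intro x hx
    rw [mem_insert, mem_insert, mem_singleton] at hx
    rcases hx with rfl | rfl | rfl <;> assumption
  · intro x _ _
    exact hF x

lemma svf_nn {H : Hub V} (ok : Ok P13 H) (s : V → ℤ) (ns : ∀ z, 0 ≤ s z) (v z : V) :
    0 ≤ sv H (fun _ => false) (fun _ z => s z) v z := by
  have h1 := r_nn ok v z
  have h2 := ok.m_nn v z
  have h3 := ns z
  have h4 : 0 ≤ min (H.m v z) (s z) := le_min h2 h3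
  simp only [sv, Bool.false_eq_true, if_false]
  split_ifs <;> linarith

lemma svf_ge {H : Hub V} (ok : Ok P13 H) (s : V → ℤ) (ns : ∀ z, 0 ≤ s z) (v z : V)
    (hr : H.r v z = 1) (hs : 1 ≤ s z) : 9 ≤ sv H (fun _ => false) (fun _ z => s z) v z := by
  have h2 := ok.m_nn v z
  have h3 := ns z
  have h4 : 0 ≤ min (H.m v z) (s z) := le_min h2 h3
  simp only [sv, Bool.false_eq_true, if_false]
  rw [if_pos (by rw [hr]; exact hs), hr]
  linarith

lemma svt_ge {H : Hub V} (ok : Ok P13 H) (s : V → ℤ) (ns : ∀ z, 0 ≤ s z) (v z : V) :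
    2 * (H.r v z + H.m v z) ≤ sv H (fun _ => true) (fun _ z => s z) v z := by
  have h1 := ok.r01 v z
  have h2 := ok.m_nn v z
  have h3 := ns z
  have h4 : 0 ≤ min (H.m v z) (s z) := le_min h2 h3
  simp only [sv, if_true]
  split_ifs <;> rcases h1 with h1 | h1 <;> rw [h1] <;> linarith

lemma svt_ge1 {H : Hub V} (ok : Ok P13 H) (s : V → ℤ) (ns : ∀ z, 0 ≤ s z) (v z : V)
    (hr : H.r v z = 1) (hs : 1 ≤ s z) :
    2 * (H.r v z + H.m v z) + 5 ≤ sv H (fun _ => true) (fun _ z => s z) v z := by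
  have h2 := ok.m_nn v z
  have h3 := ns z
  have h4 : 0 ≤ min (H.m v z) (s z) := le_min h2 h3
  simp only [sv, if_true]
  rw [if_pos (by rw [hr]; exact hs), hr]
  linarith

/-- `c₁ = 0` is impossible -/
lemma caseF (hk : S3_kill) {H : Hub V} {S : Finset V} {v y₁ y₂ : V} {ν : ℤ}
    (X : Ctx H S v ν) (hy₁ : y₁ ∈ S \ {v}) (hy₂ : y₂ ∈ S \ {v}) (hne : y₁ ≠ y₂)
    (hr₁ : H.r v y₁ = 1) (hr₂ : H.r v y₂ = 1) (hc : H.c false v = 2) (hν : ν = 11) : False := by
  have ok := X.mc.ok
  set s : V → ℤ := fun z => (if z = y₁ then 1 else 0) + (if z = y₂ then 1 else 0) with hs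
  have ns : ∀ z, 0 ≤ s z := by
    intro z
    simp only [hs]
    split_ifs <;> norm_num
  have hs1 : 1 ≤ s y₁ := by simp [hs, hne]
  have hs2 : 1 ≤ s y₂ := by simp [hs, hne.symm]
  have hsum : ∑ z ∈ S \ {v}, s z ≤ H.c false v := by
    rw [hc, hs, sum_add_distrib, sum_ite_eq', sum_ite_eq', if_pos hy₁, if_pos hy₂]
    norm_num
  obtain ⟨C, hC, -, h⟩ := killV hk X.mc X.hv false (by omega) s ns hsum
  rw [X.hν, hν] at h
  set F : V → ℤ := sv H (fun _ => false) (fun _ z => s z) v with hF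
  have nF : ∀ z, 0 ≤ F z := svf_nn ok s ns v
  have hF1 : 9 ≤ F y₁ := svf_ge ok s ns v y₁ hr₁ hs1
  have hF2 : 9 ≤ F y₂ := svf_ge ok s ns v y₂ hr₂ hs2
  have h0 : 0 ≤ ∑ z ∈ C, F z := sum_nonneg fun z _ => nF z
  by_cases hCB : C = S \ {v}
  · have h2 := le_sum2 nF hy₁ hy₂ hne
    have h3 := X.full
    rw [hCB] at h
    linarith
  · have h3 := X.prop C hC hCB
    by_cases m1 : y₁ ∈ C
    · by_cases m2 : y₂ ∈ C
      · have := le_sum2 nF m1 m2 hne
        linarith
      · have := X.one C hC y₂ hy₂ m2 hr₂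
        linarith
    · have := X.one C hC y₁ hy₁ m1 hr₁
      linarith

/-- the bound on the number of boundary edges for `c₁ = 1` -/
lemma caseT (hk : S3_kill) {H : Hub V} {S : Finset V} {v y₁ y₂ : V} {ν : ℤ}
    (X : Ctx H S v ν) (hy₁ : y₁ ∈ S \ {v}) (hy₂ : y₂ ∈ S \ {v}) (hne : y₁ ≠ y₂)
    (hr₁ : H.r v y₁ = 1) (hr₂ : H.r v y₂ = 1) (hc : H.c true v = 1) (hν : ν ≤ 13) :
    2 * ∑ z ∈ S \ {v}, (H.r v z + H.m v z) + 6 ≤ ν := by
  have ok := X.mc.ok
  set s : V → ℤ := fun z => (if z = y₁ then 1 else 0) with hs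
  have ns : ∀ z, 0 ≤ s z := by
    intro z
    simp only [hs]
    split_ifs <;> norm_num
  have hs1 : 1 ≤ s y₁ := by simp [hs]
  have hsum : ∑ z ∈ S \ {v}, s z ≤ H.c true v := by
    rw [hc, hs, sum_ite_eq', if_pos hy₁]
  obtain ⟨C, hC, -, h⟩ := killV hk X.mc X.hv true (by omega) s ns hsum
  rw [X.hν] at h
  set F : V → ℤ := sv H (fun _ => true) (fun _ z => s z) v with hF
  have gF : ∀ z, 2 * (H.r v z + H.m v z) ≤ F z := svt_ge ok s ns v
  have nrm : ∀ z, 0 ≤ H.r v z + H.m v z := fun z => add_nonneg (r_nn ok v z) (ok.m_nn v z)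
  have nF : ∀ z, 0 ≤ F z := fun z => by have := gF z; have := nrm z; linarith
  have hF1 : 2 * (H.r v y₁ + H.m v y₁) + 5 ≤ F y₁ := svt_ge1 ok s ns v y₁ hr₁ hs1
  have hm1 := ok.m_nn v y₁
  have hm2 := ok.m_nn v y₂
  have hF2 := gF y₂
  rw [hr₂] at hF2
  have hF1' : 7 ≤ F y₁ := by rw [hr₁] at hF1; linarith
  have h0 : 0 ≤ ∑ z ∈ C, F z := sum_nonneg fun z _ => nF z
  by_cases hCB : C = S \ {v}
  · rw [hCB] at h
    have h3 := X.full
    have h4 : 2 * ∑ z ∈ S \ {v}, (H.r v z + H.m v z) + 5 ≤ ∑ z ∈ S \ {v}, F z := by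
      have h5 : ∑ z ∈ S \ {v}, (2 * (H.r v z + H.m v z) + (if z = y₁ then 5 else 0))
          ≤ ∑ z ∈ S \ {v}, F z := by
        apply sum_le_sum
        intro z _
        by_cases hz : z = y₁
        · rw [if_pos hz, hz]
          exact hF1
        · rw [if_neg hz, add_zero]
          exact gF z
      rw [sum_add_distrib, sum_ite_eq', if_pos hy₁, ← mul_sum] at h5
      exact h5
    linarith
  · exfalso
    have h3 := X.prop C hC hCB
    by_cases m1 : y₁ ∈ C
    · by_cases m2 : y₂ ∈ C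
      · have := le_sum2 nF m1 m2 hne
        linarith
      · have h5 := X.one C hC y₂ hy₂ m2 hr₂
        have := le_sum1 nF m1
        linarith
    · by_cases m2 : y₂ ∈ C
      · have h5 := X.one C hC y₁ hy₁ m1 hr₁
        have := le_sum1 nF m2
        linarith
      · have := X.two C hC y₁ hy₁ y₂ hy₂ m1 m2 hne hr₁ hr₂
        linarith

lemma sum2 {B : Finset V} {F : V → ℤ} {a b : V} (ha : a ∈ B) (hb : b ∈ B) (hab : a ≠ b)
    (h : ∀ z ∈ B, z ≠ a → z ≠ b → F z = 0) : ∑ z ∈ B, F z = F a + F b := by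
  rw [← sum_pair hab]
  symm
  apply sum_subset
  · intro x hx
    rw [mem_insert, mem_singleton] at hx
    rcases hx with rfl | rfl <;> assumption
  · intro x hx hx'
    rw [mem_insert, mem_singleton, not_or] at hx'
    exact h x hx hx'.1 hx'.2

lemma sum3 {B : Finset V} {F : V → ℤ} {a b c : V} (ha : a ∈ B) (hb : b ∈ B) (hc : c ∈ B)
    (hab : a ≠ b) (hac : a ≠ c) (hbc : b ≠ c)
    (h : ∀ z ∈ B, z ≠ a → z ≠ b → z ≠ c → F z = 0) : ∑ z ∈ B, F z = F a + F b + F c := by
  have e : ∑ x ∈ ({a, b, c} : Finset V), F x = F a + F b + F c := by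
    rw [sum_insert (by simp [hab, hac]), sum_pair hbc, add_assoc]
  rw [← e]
  symm
  apply sum_subset
  · intro x hx
    rw [mem_insert, mem_insert, mem_singleton] at hx
    rcases hx with rfl | rfl | rfl <;> assumption
  · intro x hx hx'
    rw [mem_insert, mem_insert, mem_singleton, not_or, not_or] at hx'
    exact h x hx hx'.1 hx'.2.1 hx'.2.2

/-- `v` gets the colour 1 -/
lemma glueT (hg : S3_glue) {H : Hub V} (ok : Ok P13 H) {S : Finset V} {v : V} (hv : v ∈ S)
    (hc : H.c true v = 1) (g : V → Bool) (q : V → V → ℤ) (hq : ColBy H (S \ {v}) g q)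
    (h3 : ∑ z ∈ S \ {v}, (if g z = true then H.r v z else 0) ≤ 1)
    (h4 : ∀ z ∈ S \ {v}, g z = true → load H (S \ {v}) g q z + H.r v z ≤ H.c true z)
    (h5 : ∀ z ∈ S \ {v}, g z = false → load H (S \ {v}) g q z + H.m v z ≤ H.c false z) :
    Col H S := by
  refine glueV hg ok hv true (by omega) g q hq (fun z => if g z = true then H.r v z else 0)
    (fun z => if g z = true then H.r v z else H.m v z) ?_ ?_ ?_ ?_ ?_ ?_
  · intro z
    split_ifs
    · exact r_nn ok v z
    · exact le_rfl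
  · intro z
    split_ifs
    · exact r_nn ok v z
    · exact ok.m_nn v z
  · intro z hz h
    rw [if_pos h.symm, if_pos h.symm]
    exact ⟨le_rfl, le_rfl⟩
  · intro z hz h
    have hgz : ¬ g z = true := fun e => h e.symm
    rw [if_neg hgz, if_neg hgz, zero_add]
  · rw [hc]
    exact h3
  · intro z hz
    cases hgz : g z
    · have := h5 z hz hgz
      simpa [hgz] using this
    · have := h4 z hz hgz
      simpa [hgz] using this

/-- `v` gets the colour 2 -/
lemma glueF (hg : S3_glue) {H : Hub V} (ok : Ok P13 H) {S : Finset V} {v : V} (hv : v ∈ S)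
    (g : V → Bool) (q : V → V → ℤ) (hq : ColBy H (S \ {v}) g q)
    (h3 : ∑ z ∈ S \ {v}, (if g z = true then H.m v z else H.r v z) ≤ H.c false v)
    (h4 : ∀ z ∈ S \ {v}, g z = false → load H (S \ {v}) g q z + H.r v z ≤ H.c false z) :
    Col H S := by
  have nn : ∀ z, 0 ≤ (if g z = true then H.m v z else H.r v z) := by
    intro z
    split_ifs
    · exact ok.m_nn v z
    · exact r_nn ok v z
  refine glueV hg ok hv false (le_trans (sum_nonneg fun z _ => nn z) h3) g q hq
    (fun z => if g z = true then H.m v z else H.r v z)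
    (fun z => if g z = true then 0 else H.r v z) nn ?_ ?_ ?_ h3 ?_
  · intro z
    split_ifs
    · exact le_rfl
    · exact r_nn ok v z
  · intro z hz h
    have hgz : ¬ g z = true := by rw [← h]; simp
    rw [if_neg hgz, if_neg hgz]
    exact ⟨le_rfl, le_rfl⟩
  · intro z hz h
    have hgz : g z = true := by
      cases hgz : g z
      · exact absurd hgz.symm h
      · rfl
    rw [if_pos hgz, if_pos hgz, add_zero]
  · intro z hz
    cases hgz : g z
    · have := h4 z hz hgz
      simpa [hgz] using this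
    · have := hq.cap z hz
      rw [hgz] at this
      simpa [hgz] using this

/-- no third real neighbour -/
lemma caseAB (hs : S3_state) (hg : S3_glue) {H : Hub V} {S : Finset V} {v y₁ y₂ : V} {ν : ℤ}
    (X : Ctx H S v ν) (hy₁ : y₁ ∈ S \ {v}) (hy₂ : y₂ ∈ S \ {v}) (hne : y₁ ≠ y₂)
    (hr₁ : H.r v y₁ = 1) (hr₂ : H.r v y₂ = 1) (hc : H.c true v = 1) (hν : ν ≤ 13)
    (h0 : ∀ z ∈ S \ {v}, z ≠ y₁ → z ≠ y₂ → H.r v z = 0)
    (hm : ∑ z ∈ S \ {v}, H.m v z ≤ H.c false v) : False := by
  have ok := X.mc.ok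
  have hR : ∀ z ∈ S \ {v}, H.r v z = (if z = y₁ then 1 else 0) + (if z = y₂ then 1 else 0) := by
    intro z hz
    by_cases h1 : z = y₁
    · rw [if_pos h1, if_neg (by rw [h1]; exact hne), h1, hr₁]
      norm_num
    · by_cases h2 : z = y₂
      · rw [if_neg h1, if_pos h2, h2, hr₂]
        norm_num
      · rw [if_neg h1, if_neg h2, h0 z hz h1 h2]
        norm_num
  let l : Bool → V → ℤ := fun i x => if i = true then
    ((if x = y₁ then 1 else 0) + (if x = y₂ then 1 else 0)) else H.m v x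
  have lt : ∀ x, l true x = (if x = y₁ then 1 else 0) + (if x = y₂ then 1 else 0) :=
    fun x => if_pos rfl
  have lf : ∀ x, l false x = H.m v x := fun x => if_neg (by simp)
  have nl : ∀ i x, 0 ≤ l i x := by
    intro i x
    cases i
    · rw [lf]
      exact ok.m_nn v x
    · rw [lt]
      split_ifs <;> norm_num
  have hcost : ∀ C : Finset V, cost l C =
      5 * ((if y₁ ∈ C then 1 else 0) + (if y₂ ∈ C then 1 else 0)) + 3 * ∑ z ∈ C, H.m v z := by
    intro C
    rw [cost, sum_add_distrib, ← mul_sum, ← mul_sum, sum_congr rfl (fun z _ => lt z),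
      sum_congr rfl (fun z _ => lf z), sum_add_distrib, sum_ite_eq', sum_ite_eq']
  have hsr : ∀ C, C ⊆ S \ {v} → ∑ z ∈ C, H.r v z =
      (if y₁ ∈ C then 1 else 0) + (if y₂ ∈ C then 1 else 0) := by
    intro C hC
    rw [sum_congr rfl (fun z hz => hR z (hC hz)), sum_add_distrib, sum_ite_eq', sum_ite_eq']
  have hM : ∀ C : Finset V, 0 ≤ ∑ z ∈ C, H.m v z := fun C => sum_nonneg fun z _ => ok.m_nn v z
  have hne' : S \ {v} ≠ S := by
    intro h
    have : v ∈ S \ {v} := by rw [h]; exact X.hv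
    simp at this
  obtain ⟨g, q, hq, hres⟩ := hs V H S (S \ {v}) l X.mc sdiff_subset hne' nl (by
    intro C hC _
    have e1 := hcost C
    have e2 := hsr C hC
    have e3 := X.split C hC
    have e4 := hM C
    rw [e2] at e3
    rw [e1]
    by_cases m1 : y₁ ∈ C
    · by_cases m2 : y₂ ∈ C
      · rw [if_pos m1, if_pos m2] at e3 ⊢
        have : -2 ≤ hp H ({v} ∪ C) := by
          by_cases hCB : C = S \ {v}
          · rw [hCB]
            exact X.full
          · have := X.prop C hC hCB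
            linarith
        linarith
      · have := X.one C hC y₂ hy₂ m2 hr₂
        rw [if_pos m1, if_neg m2] at e3 ⊢
        linarith
    · by_cases m2 : y₂ ∈ C
      · have := X.one C hC y₁ hy₁ m1 hr₁
        rw [if_neg m1, if_pos m2] at e3 ⊢
        linarith
      · have := X.two C hC y₁ hy₁ y₂ hy₂ m1 m2 hne hr₁ hr₂
        rw [if_neg m1, if_neg m2] at e3 ⊢
        linarith)
  apply X.mc.ncol
  have rest : ∀ z ∈ S \ {v}, g z = true → load H (S \ {v}) g q z + H.r v z ≤ H.c true z := by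
    intro z hz h
    have := (hres z hz).1
    rw [h, lt, ← hR z hz] at this
    exact this
  have resf : ∀ z ∈ S \ {v}, g z = false → load H (S \ {v}) g q z + H.m v z ≤ H.c false z := by
    intro z hz h
    have := (hres z hz).1
    rw [h, lf] at this
    exact this
  by_cases hb : g y₁ = true ∧ g y₂ = true
  · obtain ⟨b1, b2⟩ := hb
    refine glueF hg ok X.hv g q hq (le_trans (sum_le_sum ?_) hm) ?_
    · intro z hz
      split_ifs with h
      · exact le_rfl
      · rw [h0 z hz (fun e => h (by rw [e]; exact b1)) (fun e => h (by rw [e]; exact b2))]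
        exact ok.m_nn v z
    · intro z hz h
      have h' : ¬ g z = true := by rw [h]; simp
      rw [h0 z hz (fun e => h' (by rw [e]; exact b1)) (fun e => h' (by rw [e]; exact b2))]
      have := hq.cap z hz
      rw [h] at this
      linarith
  · refine glueT hg ok X.hv hc g q hq ?_ rest resf
    rw [sum2 hy₁ hy₂ hne (fun z hz n1 n2 => by rw [h0 z hz n1 n2, ite_self]), hr₁, hr₂]
    split_ifs with b1 b2
    · exact absurd ⟨b1, b2⟩ hb
    all_goals norm_num

/-- one payment unit too many -/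
lemma drop {H : Hub V} (ok : Ok P13 H) {B : Finset V} {g : V → Bool} {q : V → V → ℤ} {a b : V}
    (hq : ColBy H B g q) (ha : a ∈ B) (hb : b ∈ B) (ga : g a = false) (gb : g b = true)
    (hab : H.m a b + 1 ≤ q a b + q b a) (hl : load H B g q b ≤ 0) :
    ∃ q', ColBy H B g q' ∧ load H B g q' a + 1 ≤ load H B g q a := by
  have hne : a ≠ b := by
    rintro rfl
    rw [ga] at gb
    exact absurd gb (by simp)
  have hg' : ¬ g b = g a := by rw [ga, gb]; simp
  have hg'' : ¬ g a = g b := fun e => hg' e.symm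
  have hq0 : q b a ≤ 0 := by
    have h : (if g b = g a then H.r b a else q b a) ≤ load H B g q b := by
      unfold load
      refine single_le_sum (f := fun v => if g b = g v then H.r b v else q b v) ?_ ha
      intro x _
      split_ifs
      · exact r_nn ok b x
      · exact hq.nn b x
    rw [if_neg hg'] at h
    linarith
  have hma := ok.m_nn a b
  have hms := ok.msymm a b
  let q' : V → V → ℤ := fun x y => q x y - (if x = a ∧ y = b then 1 else 0)
  have hq' : ∀ x y, q' x y = q x y - (if x = a ∧ y = b then 1 else 0) := fun _ _ => rfl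
  have hle : ∀ x y, q' x y ≤ q x y := by
    intro x y
    rw [hq']
    split_ifs <;> linarith
  refine ⟨q', ⟨?_, ?_, ?_⟩, ?_⟩
  · intro x y
    rw [hq']
    split_ifs with h
    · obtain ⟨rfl, rfl⟩ := h
      linarith
    · rw [sub_zero]
      exact hq.nn x y
  · intro x hx y hy hxy
    have := hq.pay x hx y hy hxy
    rw [hq', hq']
    by_cases h1 : x = a ∧ y = b
    · obtain ⟨rfl, rfl⟩ := h1
      rw [if_pos ⟨rfl, rfl⟩, if_neg (fun h => hne h.2)]
      linarith
    · rw [if_neg h1]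
      by_cases h2 : y = a ∧ x = b
      · obtain ⟨rfl, rfl⟩ := h2
        rw [if_pos ⟨rfl, rfl⟩]
        linarith
      · rw [if_neg h2]
        linarith
  · intro x hx
    refine le_trans ?_ (hq.cap x hx)
    unfold load
    apply sum_le_sum
    intro y _
    split_ifs
    · exact le_rfl
    · exact hle x y
  · have h : load H B g q' a = load H B g q a - 1 := by
      unfold load
      rw [eq_sub_iff_add_eq]
      have e : (1 : ℤ) = ∑ y ∈ B, (if y = b then 1 else 0) := by
        rw [sum_ite_eq', if_pos hb]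
      rw [e, ← sum_add_distrib]
      apply sum_congr rfl
      intro y _
      by_cases hy : y = b
      · subst hy
        rw [if_neg hg'', if_neg hg'', hq', if_pos ⟨rfl, rfl⟩, if_pos rfl]
        ring
      · rw [if_neg hy, add_zero, hq' a y, if_neg (fun h : a = a ∧ y = b => hy h.2), sub_zero]
    rw [h]
    linarith

/-- a third real neighbour -/
lemma caseC (hb : S3_base) (hr : S3_res) (hg : S3_glue) {H : Hub V} {S : Finset V}
    {v y₁ y₂ y₃ : V} (X : Ctx H S v 13) (hy₁ : y₁ ∈ S \ {v}) (hy₂ : y₂ ∈ S \ {v})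
    (hy₃ : y₃ ∈ S \ {v}) (h12 : y₁ ≠ y₂) (h13 : y₁ ≠ y₃) (h23 : y₂ ≠ y₃)
    (hr₁ : H.r v y₁ = 1) (hr₂ : H.r v y₂ = 1) (hr₃ : H.r v y₃ = 1) (hc1 : H.c true v = 1)
    (hc2 : H.c false v = 1)
    (h0 : ∀ z ∈ S \ {v}, z ≠ y₁ → z ≠ y₂ → z ≠ y₃ → H.r v z = 0)
    (hm : ∀ z ∈ S \ {v}, H.m v z = 0) : False := by
  have ok := X.mc.ok
  have hR : ∀ z ∈ S \ {v}, H.r v z = (if z = y₁ then 1 else 0) + (if z = y₂ then 1 else 0)
      + (if z = y₃ then 1 else 0) := by
    intro z hz
    by_cases h1 : z = y₁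
    · rw [if_pos h1, if_neg (by rw [h1]; exact h12), if_neg (by rw [h1]; exact h13), h1, hr₁]
      norm_num
    · by_cases h2 : z = y₂
      · rw [if_neg h1, if_pos h2, if_neg (by rw [h2]; exact h23), h2, hr₂]
        norm_num
      · by_cases h3 : z = y₃
        · rw [if_neg h1, if_neg h2, if_pos h3, h3, hr₃]
          norm_num
        · rw [if_neg h1, if_neg h2, if_neg h3, h0 z hz h1 h2 h3]
          norm_num
  let l : Bool → V → ℤ := fun i x => if i = true then
    ((if x = y₁ then 1 else 0) + (if x = y₂ then 1 else 0) + (if x = y₃ then 1 else 0))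
    else (if x = y₂ then 1 else 0)
  have lt : ∀ x, l true x = (if x = y₁ then 1 else 0) + (if x = y₂ then 1 else 0)
      + (if x = y₃ then 1 else 0) := fun x => if_pos rfl
  have lf : ∀ x, l false x = (if x = y₂ then 1 else 0) := fun x => if_neg (by simp)
  have nl : ∀ i x, 0 ≤ l i x := by
    intro i x
    cases i
    · rw [lf]
      split_ifs <;> norm_num
    · rw [lt]
      split_ifs <;> norm_num
  have hcost : ∀ C : Finset V, cost l C =
      5 * ((if y₁ ∈ C then 1 else 0) + (if y₂ ∈ C then 1 else 0) + (if y₃ ∈ C then 1 else 0))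
      + 3 * (if y₂ ∈ C then 1 else 0) := by
    intro C
    rw [cost, sum_add_distrib, ← mul_sum, ← mul_sum, sum_congr rfl (fun z _ => lt z),
      sum_congr rfl (fun z _ => lf z), sum_add_distrib, sum_add_distrib, sum_ite_eq', sum_ite_eq',
      sum_ite_eq']
  have hsr : ∀ C, C ⊆ S \ {v} → ∑ z ∈ C, H.r v z =
      (if y₁ ∈ C then 1 else 0) + (if y₂ ∈ C then 1 else 0) + (if y₃ ∈ C then 1 else 0) := by
    intro C hC
    rw [sum_congr rfl (fun z hz => hR z (hC hz)), sum_add_distrib, sum_add_distrib, sum_ite_eq',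
      sum_ite_eq', sum_ite_eq']
  have hsm : ∀ C, C ⊆ S \ {v} → ∑ z ∈ C, H.m v z = 0 := fun C hC =>
    sum_eq_zero fun z hz => hm z (hC hz)
  have hnn := ok.m_nn y₁ y₃
  obtain ⟨ok1, hrho, -, -⟩ := addm_h V P13 H 1 y₁ y₃ ok h13 (by linarith)
  set H1 := addm H 1 y₁ y₃ with hH1
  obtain ⟨okr, hpr, colr⟩ := hr V H1 l ok1 nl
  have hb0 := (hb V H ok).1
  have hb1 := (hb V H1 ok1).1
  have hbr := (hb V (res H1 l) okr).1
  have hp1 : ∀ C : Finset V, hp H1 C = hp H C - (if y₁ ∈ C ∧ y₃ ∈ C then 5 else 0) := by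
    intro C
    have e1 := hrho C
    rw [hb0, hb1] at e1
    have e2 : P13.a = 5 := rfl
    rw [e2] at e1
    split_ifs at e1 ⊢ <;> linarith
  have hyp : Hyp P13 (res H1 l) (S \ {v}) := by
    intro C hC hCne
    rw [hbr]
    have e0 : P13.b = 3 := rfl
    rw [e0]
    have e1 := hcost C
    have e2 := hsr C hC
    have e3 := X.split C hC
    have e4 := hsm C hC
    have e5 := hpr C
    have e6 := hp1 C
    rw [e2, e4] at e3
    rw [e1, e6] at e5
    have f : -2 ≤ hp H ({v} ∪ C) := by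
      by_cases hCB : C = S \ {v}
      · rw [hCB]
        exact X.full
      · have := X.prop C hC hCB
        linarith
    by_cases m1 : y₁ ∈ C
    · by_cases m2 : y₂ ∈ C
      · by_cases m3 : y₃ ∈ C
        · rw [if_pos m1, if_pos m2, if_pos m3] at e3 e5
          rw [if_pos ⟨m1, m3⟩] at e5
          linarith
        · have := X.one C hC y₃ hy₃ m3 hr₃
          rw [if_pos m1, if_pos m2, if_neg m3] at e3 e5
          rw [if_neg (fun h => m3 h.2)] at e5
          linarith
      · have g2 := X.one C hC y₂ hy₂ m2 hr₂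
        by_cases m3 : y₃ ∈ C
        · rw [if_pos m1, if_neg m2, if_pos m3] at e3 e5
          rw [if_pos ⟨m1, m3⟩] at e5
          linarith
        · have := X.two C hC y₂ hy₂ y₃ hy₃ m2 m3 h23 hr₂ hr₃
          rw [if_pos m1, if_neg m2, if_neg m3] at e3 e5
          rw [if_neg (fun h => m3 h.2)] at e5
          linarith
    · have g1 := X.one C hC y₁ hy₁ m1 hr₁
      rw [if_neg (fun h : y₁ ∈ C ∧ y₃ ∈ C => m1 h.1)] at e5
      by_cases m2 : y₂ ∈ C
      · by_cases m3 : y₃ ∈ C
        · rw [if_neg m1, if_pos m2, if_pos m3] at e3 e5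
          linarith
        · have := X.two C hC y₁ hy₁ y₃ hy₃ m1 m3 h13 hr₁ hr₃
          rw [if_neg m1, if_pos m2, if_neg m3] at e3 e5
          linarith
      · have := X.two C hC y₁ hy₁ y₂ hy₂ m1 m2 h12 hr₁ hr₂
        by_cases m3 : y₃ ∈ C
        · rw [if_neg m1, if_neg m2, if_pos m3] at e3 e5
          linarith
        · rw [if_neg m1, if_neg m2, if_neg m3] at e3 e5
          linarith
  have hcard : (S \ {v}).card < S.card := by
    apply card_lt_card
    rw [ssubset_iff_of_subset sdiff_subset]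
    exact ⟨v, X.hv, by simp⟩
  have hE : eE (res H1 l) (S \ {v}) ≤ eE H S := by
    have : eE (res H1 l) (S \ {v}) = eE H (S \ {v}) := rfl
    rw [this]
    unfold eE
    calc ∑ u ∈ S \ {v}, ∑ w ∈ S \ {v}, H.r u w ≤ ∑ u ∈ S \ {v}, ∑ w ∈ S, H.r u w :=
          sum_le_sum fun u _ => sum_le_sum_of_subset_of_nonneg sdiff_subset
            fun w _ _ => r_nn ok u w
      _ ≤ ∑ u ∈ S, ∑ w ∈ S, H.r u w :=
          sum_le_sum_of_subset_of_nonneg sdiff_subset
            fun u _ _ => sum_nonneg fun w _ => r_nn ok u w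
  obtain ⟨g, q, hq'⟩ := X.mc.ih2 (res H1 l) (S \ {v}) okr hyp hE hcard
  obtain ⟨hq1, hres⟩ := colr _ g q hq'
  have hml : ∀ x y, H.m x y ≤ H1.m x y := by
    intro x y
    rw [hH1]
    simp only [addm]
    split_ifs <;> linarith
  have hm13 : H1.m y₁ y₃ = H.m y₁ y₃ + 1 := by
    rw [hH1]
    simp [addm]
  have hq : ColBy H (S \ {v}) g q :=
    { nn := hq1.nn
      pay := fun u hu w hw h => le_trans (hml u w) (hq1.pay u hu w hw h)
      cap := hq1.cap }
  have hres' : ∀ x ∈ S \ {v}, load H (S \ {v}) g q x + l (g x) x ≤ H.c (g x) x := fun x hx =>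
    (hres x hx).1
  have rest : ∀ z ∈ S \ {v}, g z = true → load H (S \ {v}) g q z + H.r v z ≤ H.c true z := by
    intro z hz h
    have := hres' z hz
    rw [h, lt, ← hR z hz] at this
    exact this
  have resf : ∀ z ∈ S \ {v}, g z = false → load H (S \ {v}) g q z + H.m v z ≤ H.c false z := by
    intro z hz h
    have := hq.cap z hz
    rw [h] at this
    rw [hm z hz, add_zero]
    exact this
  -- the colouring in which `v` has the colour 2 and exactly one `yᵢ` needs service
  have two : ∀ a ∈ S \ {v}, g a = false → (∀ z ∈ S \ {v}, g z = false → z ≠ a → H.r v z = 0) →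
      H.r v a = 1 → (∃ q', ColBy H (S \ {v}) g q' ∧
        load H (S \ {v}) g q' a + 1 ≤ H.c false a) → Col H S := by
    intro a ha hga hz hra ⟨q', hq'', hla⟩
    refine glueF hg ok X.hv g q' hq'' ?_ ?_
    · rw [hc2, sum_eq_single_of_mem a ha]
      · rw [if_neg (by rw [hga]; simp), hra]
      · intro z hzB hza
        split_ifs with h
        · exact hm z hzB
        · exact hz z hzB (by simpa using h) hza
    · intro z hzB h
      by_cases hza : z = a
      · rw [hza, hra]
        exact hla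
      · rw [hz z hzB h hza]
        have := hq''.cap z hzB
        rw [h] at this
        linarith
  have zero3 : ∀ z ∈ S \ {v}, g z = false → g y₁ = true → g y₂ = true → g y₃ = true →
      H.r v z = 0 := by
    intro z hz h b1 b2 b3
    refine h0 z hz ?_ ?_ ?_
    · rintro rfl
      rw [h] at b1
      exact absurd b1 (by simp)
    · rintro rfl
      rw [h] at b2
      exact absurd b2 (by simp)
    · rintro rfl
      rw [h] at b3
      exact absurd b3 (by simp)
  -- at most one of the `yᵢ` coloured 1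
  have one : (if g y₁ = true then (1 : ℤ) else 0) + (if g y₂ = true then 1 else 0)
      + (if g y₃ = true then 1 else 0) ≤ 1 → Col H S := by
    intro h
    refine glueT hg ok X.hv hc1 g q hq ?_ rest resf
    rw [sum3 hy₁ hy₂ hy₃ h12 h13 h23 (fun z hz n1 n2 n3 => by rw [h0 z hz n1 n2 n3, ite_self]),
      hr₁, hr₂, hr₃]
    exact h
  have c1le : ∀ x, H.c true x ≤ 1 := fun x => ok.c1_le x
  apply X.mc.ncol
  cases b1 : g y₁ <;> cases b2 : g y₂ <;> cases b3 : g y₃
  · exact one (by simp [b1, b2, b3])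
  · exact one (by simp [b1, b2, b3])
  · exact one (by simp [b1, b2, b3])
  · -- `y₁` coloured 2
    refine two y₁ hy₁ b1 ?_ hr₁ ?_
    · intro z hz h hne
      refine h0 z hz hne ?_ ?_
      · rintro rfl
        rw [h] at b2
        exact absurd b2 (by simp)
      · rintro rfl
        rw [h] at b3
        exact absurd b3 (by simp)
    · have h3 : load H (S \ {v}) g q y₃ ≤ 0 := by
        have := rest y₃ hy₃ b3
        have := c1le y₃
        linarith
      have hpay := hq1.pay y₁ hy₁ y₃ hy₃ (by rw [b1, b3]; simp)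
      rw [hm13] at hpay
      obtain ⟨q', hq'', hl⟩ := drop ok hq hy₁ hy₃ b1 b3 hpay h3
      refine ⟨q', hq'', ?_⟩
      have := hq.cap y₁ hy₁
      rw [b1] at this
      linarith
  · exact one (by simp [b1, b2, b3])
  · -- `y₂` coloured 2
    refine two y₂ hy₂ b2 ?_ hr₂ ⟨q, hq, ?_⟩
    · intro z hz h hne
      refine h0 z hz ?_ hne ?_
      · rintro rfl
        rw [h] at b1
        exact absurd b1 (by simp)
      · rintro rfl
        rw [h] at b3
        exact absurd b3 (by simp)
    · have := hres' y₂ hy₂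
      rw [b2, lf, if_pos rfl] at this
      exact this
  · -- `y₃` coloured 2
    refine two y₃ hy₃ b3 ?_ hr₃ ?_
    · intro z hz h hne
      refine h0 z hz ?_ ?_ hne
      · rintro rfl
        rw [h] at b1
        exact absurd b1 (by simp)
      · rintro rfl
        rw [h] at b2
        exact absurd b2 (by simp)
    · have h3 : load H (S \ {v}) g q y₁ ≤ 0 := by
        have := rest y₁ hy₁ b1
        have := c1le y₁
        linarith
      have hpay := hq1.pay y₁ hy₁ y₃ hy₃ (by rw [b1, b3]; simp)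
      rw [hm13, ok.msymm y₁ y₃, add_comm (q y₁ y₃)] at hpay
      obtain ⟨q', hq'', hl⟩ := drop ok hq hy₃ hy₁ b3 b1 hpay h3
      refine ⟨q', hq'', ?_⟩
      have := hq.cap y₃ hy₃
      rw [b3] at this
      linarith
  · -- all coloured 1
    refine glueF hg ok X.hv g q hq ?_ ?_
    · rw [hc2, sum_eq_zero]
      · norm_num
      · intro z hz
        split_ifs with h
        · exact hm z hz
        · exact zero3 z hz (by simpa using h) b1 b2 b3
    · intro z hz h
      rw [zero3 z hz h b1 b2 b3]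
      have := hq.cap z hz
      rw [h] at this
      linarith

end gen

/-- **Leaf DH/30.** -/
theorem t2h (hb : S3_base) (hs : S3_state) (hr : S3_res) (hk : S3_kill) (hg : S3_glue) :
    S3_t2h := by
  intro V _ H S v y₁ y₂ ν T
  have X := ctx hb T
  have ok := T.mc.ok
  have hv : v ∈ S := X.hv
  have hy₁ := T.hy₁
  have hy₂ := T.hy₂
  have hν : ν = 5 * (H.c true v + 1) + 3 * H.c false v := by
    rw [← T.hν]
    exact (hb V H ok).2.2.2.1 v
  have c10 : 0 ≤ H.c true v := caps_h V P13 H S T.mc v hv true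
  have c20 : 0 ≤ H.c false v := caps_h V P13 H S T.mc v hv false
  have c11 : H.c true v ≤ 1 := ok.c1_le v
  have h10 : 10 ≤ ν := by
    rw [← T.hν]
    exact T.rb10 {v} T.sub ⟨v, mem_singleton_self v, y₁, hy₁, T.r₁⟩
  have h13 := T.le
  rcases (by omega : H.c true v = 0 ∨ H.c true v = 1) with hc | hc
  · rw [hc] at hν
    exact caseF hk X hy₁ hy₂ T.ne T.r₁ T.r₂ (by omega) (by omega)
  · rw [hc] at hν
    have hc2 : H.c false v ≤ 1 := by omega
    have hbd := caseT hk X hy₁ hy₂ T.ne T.r₁ T.r₂ hc h13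
    rw [sum_add_distrib] at hbd
    have nR : ∀ z, 0 ≤ H.r v z := r_nn ok v
    have nM : ∀ z, 0 ≤ H.m v z := ok.m_nn v
    have hM0 : 0 ≤ ∑ z ∈ S \ {v}, H.m v z := sum_nonneg fun z _ => nM z
    have hr₁ := T.r₁
    have hr₂ := T.r₂
    by_cases h3 : ∃ z ∈ S \ {v}, z ≠ y₁ ∧ z ≠ y₂ ∧ H.r v z = 1
    · obtain ⟨y₃, hy₃, n1, n2, hr₃⟩ := h3
      have hR3 := le_sum3 nR hy₁ hy₂ hy₃ T.ne n1.symm n2.symm
      rw [hr₁, hr₂, hr₃] at hR3
      have hν13 : ν = 13 := by omega
      have hM : ∑ z ∈ S \ {v}, H.m v z = 0 := by omega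
      have hRe : ∑ z ∈ S \ {v}, H.r v z = 3 := by omega
      subst hν13
      refine caseC hb hr hg X hy₁ hy₂ hy₃ T.ne n1.symm n2.symm hr₁ hr₂ hr₃ hc (by omega) ?_ ?_
      · intro z hz m1 m2 m3
        rcases ok.r01 v z with h | h
        · exact h
        · exfalso
          have e : ∑ x ∈ ({z, y₁, y₂, y₃} : Finset V), H.r v x = 4 := by
            rw [sum_insert (by simp [m1, m2, m3]), sum_insert (by simp [T.ne, n1.symm]),
              sum_pair n2.symm, h, hr₁, hr₂, hr₃]
            norm_num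
          have e' : ∑ x ∈ ({z, y₁, y₂, y₃} : Finset V), H.r v x ≤ ∑ x ∈ S \ {v}, H.r v x := by
            apply sum_le_sum_of_subset_of_nonneg
            · intro x hx
              rw [mem_insert, mem_insert, mem_insert, mem_singleton] at hx
              rcases hx with rfl | rfl | rfl | rfl <;> assumption
            · intro x _ _
              exact nR x
          omega
      · exact (sum_eq_zero_iff_of_nonneg fun z _ => nM z).1 hM
    · have hR2 := le_sum2 nR hy₁ hy₂ T.ne
      rw [hr₁, hr₂] at hR2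
      refine caseAB hs hg X hy₁ hy₂ T.ne hr₁ hr₂ hc h13 ?_ (by omega)
      intro z hz n1 n2
      rcases ok.r01 v z with h | h
      · exact h
      · exact absurd ⟨z, hz, n1, n2, h⟩ h3

end Pool.Agent.N658.DF.T2h
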